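import Pool.Agent.Helper70_PDS.Stmts

/-! INS: insertion of a graph at a vertex. -/

namespace PDS.H88

open Multiset PDS

/-- the vertices of the inserted graph -/
def phi {V : Type} {m : ℕ} (u : V) : Fin (m + 1) → V ⊕ Fin m :=
  Fin.cons (Sum.inl u) Sum.inr

theorem phi_zero {V : Type} {m : ℕ} (u : V) : phi (m := m) u 0 = Sum.inl u := rfl

theorem phi_succ {V : Type} {m : ℕ} (u : V) (j : Fin m) : phi u j.succ = Sum.inr j := rfl

theorem phi_inj {V : Type} {m : ℕ} (u : V) : Function.Injective (phi (m := m) u) := by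
  intro i j h
  induction i using Fin.cases with
  | zero =>
    induction j using Fin.cases with
    | zero => rfl
    | succ j => simp [phi_zero, phi_succ] at h
  | succ i =>
    induction j using Fin.cases with
    | zero => simp [phi_zero, phi_succ] at h
    | succ j => simp only [phi_succ, Sum.inr.injEq] at h; rw [h]

theorem phi_inl {V : Type} {m : ℕ} {u p : V} {i : Fin (m + 1)} (h : phi u i = Sum.inl p) :
    i = 0 ∧ p = u := by
  induction i using Fin.cases with
  | zero => simp only [phi_zero, Sum.inl.injEq] at h; exact ⟨rfl, h.symm⟩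
  | succ i => simp [phi_succ] at h

/-- the new graph -/
def K {V : Type} {m : ℕ} (G : SimpleGraph V) (H : SimpleGraph (Fin (m + 1))) (u : V) :
    SimpleGraph (V ⊕ Fin m) where
  Adj a b := (∃ p q, a = Sum.inl p ∧ b = Sum.inl q ∧ G.Adj p q) ∨
    (∃ i j, a = phi u i ∧ b = phi u j ∧ H.Adj i j)
  symm := ⟨by
    rintro a b (⟨p, q, h1, h2, h3⟩ | ⟨i, j, h1, h2, h3⟩)
    · exact Or.inl ⟨q, p, h2, h1, h3.symm⟩
    · exact Or.inr ⟨j, i, h2, h1, h3.symm⟩⟩
  loopless := ⟨by
    rintro a (⟨p, q, h1, h2, h3⟩ | ⟨i, j, h1, h2, h3⟩)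
    · rw [h1] at h2
      simp only [Sum.inl.injEq] at h2
      rw [h2] at h3
      exact G.loopless.irrefl _ h3
    · rw [h1] at h2
      rw [phi_inj u h2] at h3
      exact H.loopless.irrefl _ h3⟩

theorem nbr_inr {V : Type} {m : ℕ} (G : SimpleGraph V) (H : SimpleGraph (Fin (m + 1))) (u : V)
    (j : Fin m) : (K G H u).neighborSet (Sum.inr j) = phi u '' H.neighborSet j.succ := by
  ext b
  simp only [SimpleGraph.mem_neighborSet, Set.mem_image, K]
  constructor
  · rintro (⟨p, q, h1, h2, h3⟩ | ⟨i, k, h1, h2, h3⟩)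
    · simp at h1
    · rw [← phi_succ u j] at h1
      exact ⟨k, by rw [phi_inj u h1]; exact h3, h2.symm⟩
  · rintro ⟨k, h1, h2⟩
    exact Or.inr ⟨j.succ, k, (phi_succ u j).symm, h2.symm, h1⟩

theorem nbr_ne {V : Type} {m : ℕ} (G : SimpleGraph V) (H : SimpleGraph (Fin (m + 1))) (u v : V)
    (hv : v ≠ u) : (K G H u).neighborSet (Sum.inl v) = Sum.inl '' G.neighborSet v := by
  ext b
  simp only [SimpleGraph.mem_neighborSet, Set.mem_image, K]
  constructor
  · rintro (⟨p, q, h1, h2, h3⟩ | ⟨i, k, h1, h2, h3⟩)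
    · simp only [Sum.inl.injEq] at h1
      exact ⟨q, by rw [h1]; exact h3, h2.symm⟩
    · exact absurd (phi_inl h1.symm).2 hv
  · rintro ⟨q, h1, h2⟩
    exact Or.inl ⟨v, q, rfl, h2.symm, h1⟩

theorem nbr_u {V : Type} {m : ℕ} (G : SimpleGraph V) (H : SimpleGraph (Fin (m + 1))) (u : V) :
    (K G H u).neighborSet (Sum.inl u) =
      Sum.inl '' G.neighborSet u ∪ phi u '' H.neighborSet 0 := by
  ext b
  simp only [SimpleGraph.mem_neighborSet, Set.mem_image, K, Set.mem_union]
  constructor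
  · rintro (⟨p, q, h1, h2, h3⟩ | ⟨i, k, h1, h2, h3⟩)
    · simp only [Sum.inl.injEq] at h1
      exact Or.inl ⟨q, by rw [h1]; exact h3, h2.symm⟩
    · exact Or.inr ⟨k, by rw [← (phi_inl h1.symm).1]; exact h3, h2.symm⟩
  · rintro (⟨q, h1, h2⟩ | ⟨k, h1, h2⟩)
    · exact Or.inl ⟨u, q, rfl, h2.symm, h1⟩
    · exact Or.inr ⟨0, k, rfl, h2.symm, h1⟩

theorem dg_inr {V : Type} {m : ℕ} (G : SimpleGraph V) (H : SimpleGraph (Fin (m + 1))) (u : V)
    (j : Fin m) : dg (K G H u) (Sum.inr j) = dg H j.succ := by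
  unfold dg
  rw [nbr_inr, Set.ncard_image_of_injective _ (phi_inj u)]

theorem dg_ne {V : Type} {m : ℕ} (G : SimpleGraph V) (H : SimpleGraph (Fin (m + 1))) (u v : V)
    (hv : v ≠ u) : dg (K G H u) (Sum.inl v) = dg G v := by
  unfold dg
  rw [nbr_ne _ _ _ _ hv, Set.ncard_image_of_injective _ Sum.inl_injective]

theorem dg_u {V : Type} [Finite V] {m : ℕ} (G : SimpleGraph V) (H : SimpleGraph (Fin (m + 1)))
    (u : V) : dg (K G H u) (Sum.inl u) = dg G u + dg H 0 := by
  unfold dg
  rw [nbr_u, Set.ncard_union_eq, Set.ncard_image_of_injective _ (phi_inj u),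
    Set.ncard_image_of_injective _ Sum.inl_injective]
  · rw [Set.disjoint_left]
    rintro b ⟨q, h1, h2⟩ ⟨k, h3, h4⟩
    rw [← h2] at h4
    rw [SimpleGraph.mem_neighborSet, (phi_inl h4).1] at h3
    exact H.loopless.irrefl _ h3

/-- positions -/
noncomputable def npos {V : Type} {m : ℕ} (pos : V → ℝ) (u : V) (ε : ℝ) : V ⊕ Fin m → ℝ
  | Sum.inl v => pos v
  | Sum.inr j => pos u + ε * ((j : ℝ) + 1)

theorem npos_phi {V : Type} {m : ℕ} (pos : V → ℝ) (u : V) (ε : ℝ) (i : Fin (m + 1)) :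
    npos pos u ε (phi u i) = pos u + ε * (i : ℕ) := by
  induction i using Fin.cases with
  | zero => simp [phi_zero, npos]
  | succ i => simp [phi_succ, npos]

theorem exists_gap {V : Type} [Finite V] (pos : V → ℝ) (u : V) :
    ∃ δ : ℝ, 0 < δ ∧ ∀ v, pos u < pos v → pos u + δ < pos v := by
  have h : ∀ᶠ δ : ℝ in nhdsWithin 0 (Set.Ioi 0), ∀ v, pos u < pos v → pos u + δ < pos v := by
    rw [Filter.eventually_all]
    intro v
    by_cases hv : pos u < pos v
    · have : Set.Ioo (0 : ℝ) (pos v - pos u) ∈ nhdsWithin (0 : ℝ) (Set.Ioi 0) :=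
        Ioo_mem_nhdsGT (by linarith)
      filter_upwards [this] with δ hδ _
      linarith [hδ.2]
    · exact Filter.Eventually.of_forall fun δ h => absurd h hv
  have h2 : ∀ᶠ δ : ℝ in nhdsWithin 0 (Set.Ioi 0), 0 < δ := self_mem_nhdsWithin
  obtain ⟨δ, h3, h4⟩ := (h2.and h).exists
  exact ⟨δ, h3, h4⟩

theorem book {V : Type} [Finite V] {m : ℕ} (G : SimpleGraph V) (H : SimpleGraph (Fin (m + 1)))
    (u : V) (B : Book G) (hH : FinBook H) : Book2 (K G H u) := by
  obtain ⟨upH, hs, hn⟩ := hH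
  obtain ⟨δ, hδ, hgap⟩ := exists_gap B.pos u
  have hm : (0 : ℝ) < (m : ℝ) + 1 := by positivity
  set ε : ℝ := δ / ((m : ℝ) + 1) with hε
  have hε0 : 0 < ε := div_pos hδ hm
  have hεm : ∀ k : ℕ, k ≤ m → ε * k < δ := by
    intro k hk
    have h1 : (k : ℝ) < (m : ℝ) + 1 := by exact_mod_cast Nat.lt_succ_of_le hk
    have h2 : ε * ((m : ℝ) + 1) = δ := by rw [hε]; field_simp
    calc ε * k < ε * ((m : ℝ) + 1) := by exact mul_lt_mul_of_pos_left h1 hε0
      _ = δ := h2
  have hφ : ∀ i : Fin (m + 1), B.pos u ≤ npos B.pos u ε (phi u i) ∧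
      npos B.pos u ε (phi u i) < B.pos u + δ := by
    intro i
    rw [npos_phi]
    have h1 := hεm i (Nat.lt_succ_iff.mp i.2)
    have h2 : 0 ≤ ε * (i : ℕ) := by positivity
    exact ⟨by linarith, by linarith⟩
  have hfar : ∀ (v : V) (i : Fin (m + 1)), B.pos u < B.pos v →
      npos B.pos u ε (phi u i) < B.pos v := by
    intro v i hv
    have h1 := hgap v hv
    have h2 := (hφ i).2
    linarith
  refine ⟨⟨npos B.pos u ε, fun a b => (∃ p q, a = Sum.inl p ∧ b = Sum.inl q ∧ G.Adj p q ∧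
    B.up p q) ∨ (∃ i j, a = phi u i ∧ b = phi u j ∧ H.Adj i j ∧ upH i j), ?_, ?_, ?_⟩⟩
  · rintro (v | i) (w | j) h
    · simp only [npos] at h
      rw [B.inj h]
    · have h1 : B.pos v = npos B.pos u ε (phi u j.succ) := h
      have h2 : B.pos u < B.pos v := by
        rw [h1, npos_phi]
        have : 0 < ε * ((j.succ : Fin (m + 1)) : ℕ) := by
          have : (0 : ℝ) < ((j.succ : Fin (m + 1)) : ℕ) := by simp; positivity
          positivity
        linarith
      exact absurd (hfar v j.succ h2) (by rw [← h1]; exact lt_irrefl _)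
    · have h1 : B.pos w = npos B.pos u ε (phi u i.succ) := h.symm
      have h2 : B.pos u < B.pos w := by
        rw [h1, npos_phi]
        have : 0 < ε * ((i.succ : Fin (m + 1)) : ℕ) := by
          have : (0 : ℝ) < ((i.succ : Fin (m + 1)) : ℕ) := by simp; positivity
          positivity
        linarith
      exact absurd (hfar w i.succ h2) (by rw [← h1]; exact lt_irrefl _)
    · simp only [npos] at h
      have h1 : ((i : ℕ) : ℝ) = ((j : ℕ) : ℝ) := by
        have h2 : ε * (((i : ℕ) : ℝ) + 1) = ε * (((j : ℕ) : ℝ) + 1) := by linarith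
        have h3 := mul_left_cancel₀ hε0.ne' h2
        linarith
      have h2 : (i : ℕ) = j := by exact_mod_cast h1
      rw [Fin.ext h2]
  · rintro a b (⟨p, q, h1, h2, h3, h4⟩ | ⟨i, j, h1, h2, h3, h4⟩)
    · exact Or.inl ⟨q, p, h2, h1, h3.symm, B.symm _ _ h4⟩
    · exact Or.inr ⟨j, i, h2, h1, h3.symm, hs _ _ h4⟩
  · intro a b c d hab hcd hup h1 h2 h3
    rcases hab with ⟨p, q, ha, hb, hpq⟩ | ⟨i, j, ha, hb, hij⟩ <;>
    rcases hcd with ⟨p', q', hc, hd, hpq'⟩ | ⟨i', j', hc, hd, hij'⟩ <;>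
    subst ha hb hc hd
    · refine B.nc p q p' q' hpq hpq' ?_ h1 h2 h3
      have key : ∀ x y : V, G.Adj x y → (((∃ p q, (Sum.inl x : V ⊕ Fin m) = Sum.inl p ∧
          (Sum.inl y : V ⊕ Fin m) = Sum.inl q ∧ G.Adj p q ∧ B.up p q) ∨
          (∃ i j, (Sum.inl x : V ⊕ Fin m) = phi u i ∧ (Sum.inl y : V ⊕ Fin m) = phi u j ∧
            H.Adj i j ∧ upH i j)) ↔ B.up x y) := by
        intro x y hxy
        constructor
        · rintro (⟨p, q, h1, h2, h3, h4⟩ | ⟨i, j, h1, h2, h3, h4⟩)
          · simp only [Sum.inl.injEq] at h1 h2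
            rw [h1, h2]; exact h4
          · rw [(phi_inl h1.symm).1, (phi_inl h2.symm).1] at h3
            exact absurd h3 (H.loopless.irrefl _)
        · intro h
          exact Or.inl ⟨x, y, rfl, rfl, hxy, h⟩
      rw [key p q hpq, key p' q' hpq'] at hup
      exact hup
    · have h4 : B.pos u < B.pos q := lt_of_le_of_lt (hφ i').1 h2
      exact absurd (hfar q j' h4) (not_lt.mpr (le_of_lt h3))
    · have h4 : B.pos u < B.pos p' := lt_of_le_of_lt (hφ i).1 h1
      exact absurd (hfar p' j h4) (not_lt.mpr (le_of_lt h2))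
    · have key : ∀ x y : Fin (m + 1), H.Adj x y → (((∃ p q, phi u x = Sum.inl p ∧
          phi u y = Sum.inl q ∧ G.Adj p q ∧ B.up p q) ∨
          (∃ i j, phi u x = phi u i ∧ phi u y = phi u j ∧
            H.Adj i j ∧ upH i j)) ↔ upH x y) := by
        intro x y hxy
        constructor
        · rintro (⟨p, q, h1, h2, h3, h4⟩ | ⟨i, j, h1, h2, h3, h4⟩)
          · rw [(phi_inl h1).1, (phi_inl h2).1] at hxy
            exact absurd hxy (H.loopless.irrefl _)
          · rw [phi_inj u h1, phi_inj u h2]; exact h4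
        · intro h
          exact Or.inr ⟨x, y, rfl, rfl, hxy, h⟩
      have ord : ∀ x y : Fin (m + 1), npos B.pos u ε (phi u x) < npos B.pos u ε (phi u y) →
          x < y := by
        intro x y h
        rw [npos_phi, npos_phi] at h
        have h1 : ((x : ℕ) : ℝ) < ((y : ℕ) : ℝ) := by
          by_contra hc
          push Not at hc
          have := mul_le_mul_of_nonneg_left hc hε0.le
          linarith
        exact_mod_cast h1
      refine hn i j i' j' hij hij' ?_ (ord _ _ h1) (ord _ _ h2) (ord _ _ h3)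
      rw [key i j hij, key i' j' hij'] at hup
      exact hup

theorem ins : InsStmt := by
  classical
  intro m H hH x D hD
  obtain ⟨V, inst, G, ⟨B⟩, hV⟩ := hD
  have hx : x ∈ (Finset.univ : Finset V).val.map (dg G) := by rw [hV]; exact mem_cons_self _ _
  obtain ⟨u, hu, hux⟩ := Multiset.mem_map.mp hx
  have hcons : (Finset.univ : Finset V).val = u ::ₘ (Finset.univ : Finset V).val.erase u :=
    (Multiset.cons_erase hu).symm
  have hD : D = ((Finset.univ : Finset V).val.erase u).map (dg G) := by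
    rw [hcons, Multiset.map_cons, hux] at hV
    exact ((Multiset.cons_inj_right x).mp hV).symm
  refine ⟨V ⊕ Fin m, inferInstance, K G H u, book G H u B hH, ?_⟩
  rw [← Finset.univ_disjSum_univ, Finset.val_disjSum, Multiset.disjSum, Multiset.map_add,
    Multiset.map_map, Multiset.map_map]
  have h1 : ((Finset.univ : Finset (Fin m)).val.map (dg (K G H u) ∘ Sum.inr)) =
      (Finset.univ : Finset (Fin m)).val.map fun j => dg H j.succ :=
    Multiset.map_congr rfl fun j _ => dg_inr G H u j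
  rw [h1, hcons, Multiset.map_cons, Multiset.cons_add]
  have h2 : ((Finset.univ : Finset V).val.erase u).map (dg (K G H u) ∘ Sum.inl) = D := by
    rw [hD]
    refine Multiset.map_congr rfl fun v hv => ?_
    have hne : v ≠ u := ((Finset.univ : Finset V).nodup.mem_erase_iff.mp hv).1
    exact dg_ne G H u v hne
  rw [h2]
  simp only [Function.comp_apply]
  rw [dg_u, hux]

end PDS.H88
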